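import Pool.Agent.H70.NS.Circ
import Pool.Agent.H63.NS.Pos

/-!
Equidistribution of `k (A cos n - (n/N) B sin n)` (MP_3ea55a_an, M5b): the field `ed` of `NumData`.
-/

set_option autoImplicit false

open MeasureTheory Finset Filter Topology intervalIntegral
open scoped BigOperators

namespace Pool.Agent.H70.NS

open Pool.Agent.H63.NS (av av_congr av_add av_sub av_mul av_const av_mono av_le abs_av_le_av abs_av_le
  abs_av_le' av_nonneg av_comm)

variable {ρ : ℝ → ℝ} {m : ℝ}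

/-- permutation of the `q`-th roots -/
lemma av_perm {q : ℕ} {p : ℤ} (hq : 0 < q) (hg : Int.gcd q p = 1) {G : ℝ → ℝ}
    (hG : Function.Periodic G (2 * Real.pi)) (θ : ℝ) :
    av (range q) (fun j => G (θ + 2 * Real.pi * (p * j) / q)) =
      av (range q) (fun i => G (θ + i * (2 * Real.pi / q))) := by
  have hq' : (0 : ℤ) < q := by exact_mod_cast hq
  have hqr : (q : ℝ) ≠ 0 := by positivity
  set σ : ℕ → ℕ := fun j => ((p * j) % q).toNat with hσ
  have hσc : ∀ j : ℕ, ((σ j : ℕ) : ℤ) = (p * j) % q := fun j =>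
    Int.toNat_of_nonneg (Int.emod_nonneg _ hq'.ne')
  have hmem : ∀ j ∈ range q, σ j ∈ range q := by
    intro j _
    rw [mem_range]
    have h1 := Int.emod_lt_of_pos (p * j) hq'
    rw [← hσc] at h1
    exact_mod_cast h1
  have hinj : ∀ j ∈ range q, ∀ j' ∈ range q, σ j = σ j' → j = j' := by
    intro j hj j' hj' he
    have h1 : (p * j) % (q : ℤ) = (p * j') % q := by rw [← hσc, ← hσc, he]
    have h2 : (q : ℤ) ∣ p * j - p * j' := Int.ModEq.dvd (Eq.symm h1)
    rw [← mul_sub] at h2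
    have h3 : (q : ℤ) ∣ (j : ℤ) - j' := by
      refine IsCoprime.dvd_of_dvd_mul_left ?_ h2
      exact Int.isCoprime_iff_gcd_eq_one.2 hg
    rw [mem_range] at hj hj'
    have h4 : |(j : ℤ) - j'| < q := by rw [abs_lt]; omega
    have h5 := Int.eq_zero_of_abs_lt_dvd h3 h4
    omega
  have himg : (range q).image σ = range q := by
    apply eq_of_subset_of_card_le
    · intro x hx
      obtain ⟨j, hj, rfl⟩ := mem_image.1 hx
      exact hmem j hj
    · rw [card_image_of_injOn (fun j hj j' hj' h => hinj j (mem_coe.1 hj) j' (mem_coe.1 hj') h)]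
  rw [av_range, av_range]
  congr 1
  conv_rhs => rw [← himg]
  rw [sum_image fun j hj j' hj' h => hinj j hj j' hj' h]
  refine sum_congr rfl fun j _ => ?_
  have h1 : ((p : ℝ) * j) = (σ j : ℕ) + q * ((p * j / q : ℤ) : ℝ) := by
    have h2 : (p * j : ℤ) = (σ j : ℕ) + q * (p * j / q) := by
      rw [hσc]; exact (Int.emod_add_mul_ediv _ _).symm
    exact_mod_cast h2
  have h3 : θ + 2 * Real.pi * (p * j) / q =
      θ + (σ j : ℕ) * (2 * Real.pi / q) + ((p * j / q : ℤ) : ℝ) * (2 * Real.pi) := by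
    rw [h1]
    field_simp
    ring
  rw [h3]
  exact hG.int_mul _ _

/-- the function on the circle -/
noncomputable def gg (ρ : ℝ → ℝ) (k A B s y : ℝ) : ℝ := ρ (k * (A * Real.cos y - s * B * Real.sin y))

lemma gg_per (k A B s : ℝ) : Function.Periodic (gg ρ k A B s) (2 * Real.pi) := by
  intro y
  unfold gg
  rw [Real.cos_add_two_pi, Real.sin_add_two_pi]

lemma gg_lip {k A B s W : ℝ} (hk : 0 ≤ k) (hA : |A| ≤ W) (hB : |B| ≤ W) (hs : |s| ≤ 1) (y y' : ℝ) :
    |k * (A * Real.cos y - s * B * Real.sin y) - k * (A * Real.cos y' - s * B * Real.sin y')| ≤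
      k * (2 * W) * |y - y'| := by
  have c1 : |Real.cos y - Real.cos y'| ≤ |y - y'| := Real.abs_cos_sub_cos_le _ _
  have c2 : |Real.sin y - Real.sin y'| ≤ |y - y'| := Real.abs_sin_sub_sin_le _ _
  have hW : 0 ≤ W := (abs_nonneg _).trans hA
  have e : k * (A * Real.cos y - s * B * Real.sin y) - k * (A * Real.cos y' - s * B * Real.sin y') =
      k * (A * (Real.cos y - Real.cos y') - s * B * (Real.sin y - Real.sin y')) := by ring
  rw [e, abs_mul, abs_of_nonneg hk, mul_assoc k (2 * W)]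
  refine mul_le_mul_of_nonneg_left ?_ hk
  calc |A * (Real.cos y - Real.cos y') - s * B * (Real.sin y - Real.sin y')|
      ≤ |A * (Real.cos y - Real.cos y')| + |s * B * (Real.sin y - Real.sin y')| := abs_sub _ _
    _ = |A| * |Real.cos y - Real.cos y'| + |s| * |B| * |Real.sin y - Real.sin y'| := by
        rw [abs_mul, abs_mul, abs_mul]
    _ ≤ W * |y - y'| + 1 * W * |y - y'| := by
        refine add_le_add (mul_le_mul hA c1 (abs_nonneg _) hW) (mul_le_mul ?_ c2 (abs_nonneg _) (by linarith))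
        exact mul_le_mul hs hB (abs_nonneg _) zero_le_one
    _ = 2 * W * |y - y'| := by ring

/-- a full turn -/
lemma gg_int {k A B s θ : ℝ} :
    ∫ y in θ..(θ + 2 * Real.pi), gg ρ k A B s y =
      ∫ y in (0 : ℝ)..(2 * Real.pi), ρ (k * Real.sqrt (A ^ 2 + (s * B) ^ 2) * Real.cos y) := by
  obtain ⟨z, hz⟩ : ∃ z : ℂ, z = ⟨A, s * B⟩ := ⟨_, rfl⟩
  have hn : ‖z‖ = Real.sqrt (A ^ 2 + (s * B) ^ 2) := by
    rw [Complex.norm_def, Complex.normSq_apply, hz]
    congr 1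
    ring
  have h1 : ‖z‖ * Real.cos z.arg = A := by rw [Complex.norm_mul_cos_arg, hz]
  have h2 : ‖z‖ * Real.sin z.arg = s * B := by rw [Complex.norm_mul_sin_arg, hz]
  have e1 : ∀ y, gg ρ k A B s y = ρ (k * ‖z‖ * Real.cos (y + z.arg)) := by
    intro y
    unfold gg
    congr 1
    rw [Real.cos_add, ← h2]
    conv_lhs => rw [← h1]
    ring
  simp_rw [e1]
  rw [← hn]
  have h3 := intervalIntegral.integral_comp_add_right (a := θ) (b := θ + 2 * Real.pi)
    (fun y => ρ (k * ‖z‖ * Real.cos y)) z.arg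
  rw [h3]
  have hp : Function.Periodic (fun y => ρ (k * ‖z‖ * Real.cos y)) (2 * Real.pi) := by
    intro y
    simp only [Real.cos_add_two_pi]
  have h4 := hp.intervalIntegral_add_eq (θ + z.arg) 0
  rw [zero_add] at h4
  rw [← h4]
  congr 1
  ring

/-- **One period of `q` consecutive integers.** -/
lemma q_avg (hc : Continuous ρ) {ε δ K0 k A B s W : ℝ} {q : ℕ} {p : ℤ}
    (hu : ∀ a a' : ℝ, |a - a'| ≤ δ → |ρ a - ρ a'| ≤ ε)
    (hK0 : ∀ K ≥ K0, |(2 * Real.pi)⁻¹ * (∫ y in (0 : ℝ)..(2 * Real.pi), ρ (K * Real.cos y)) - m| ≤ ε)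
    (hq : 0 < q) (hg : Int.gcd q p = 1) (hk : 0 ≤ k) (hA : |A| ≤ W) (hB : |B| ≤ W) (hs : |s| ≤ 1)
    (h1 : k * (2 * W) * |(q : ℝ) - 2 * Real.pi * p| ≤ δ) (h2 : k * (2 * W) * (2 * Real.pi / q) ≤ δ)
    (h3 : K0 ≤ k * Real.sqrt (A ^ 2 + (s * B) ^ 2)) (θ : ℝ) :
    |av (range q) (fun j => gg ρ k A B s (θ + j)) - m| ≤ 3 * ε := by
  have hqr : (0 : ℝ) < q := Nat.cast_pos.2 hq
  have hne : (range q).Nonempty := by rw [nonempty_range_iff]; omega
  have hpi := Real.pi_pos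
  have hW : 0 ≤ W := (abs_nonneg _).trans hA
  have hkW : 0 ≤ k * (2 * W) := by positivity
  -- modulus of continuity of the function
  have hmod : ∀ y y' : ℝ, k * (2 * W) * |y - y'| ≤ δ → |gg ρ k A B s y - gg ρ k A B s y'| ≤ ε := by
    intro y y' h
    exact hu _ _ ((gg_lip hk hA hB hs y y').trans h)
  -- step 1: the grid
  have s1 : |av (range q) (fun j => gg ρ k A B s (θ + j)) -
      av (range q) (fun j => gg ρ k A B s (θ + 2 * Real.pi * (p * j) / q))| ≤ ε := by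
    rw [← av_sub]
    refine abs_av_le hne fun j hj => ?_
    apply hmod
    refine le_trans (mul_le_mul_of_nonneg_left ?_ hkW) h1
    have hj' : (j : ℝ) ≤ q := by
      have := (mem_range.1 hj).le
      exact_mod_cast this
    have e : θ + (j : ℝ) - (θ + 2 * Real.pi * (p * j) / q) = (j / q) * ((q : ℝ) - 2 * Real.pi * p) := by
      field_simp
      ring
    rw [e, abs_mul, abs_of_nonneg (by positivity : (0 : ℝ) ≤ j / q)]
    have h4 : (j : ℝ) / q ≤ 1 := (div_le_one hqr).2 hj'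
    have := abs_nonneg ((q : ℝ) - 2 * Real.pi * p)
    nlinarith
  rw [av_perm hq hg (gg_per k A B s) θ] at s1
  -- step 2: Riemann sums
  have hgc : Continuous (gg ρ k A B s) := by
    unfold gg
    exact hc.comp (continuous_const.mul ((continuous_const.mul Real.continuous_cos).sub
      (continuous_const.mul Real.continuous_sin)))
  have s2 := riem hgc hq (h := 2 * Real.pi / q) (by positivity) (ε := ε) (fun a a' h => hmod a a'
    ((mul_le_mul_of_nonneg_left h hkW).trans h2)) θ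
  have e1 : (q : ℝ) * (2 * Real.pi / q) = 2 * Real.pi := by field_simp
  rw [e1, gg_int] at s2
  -- step 3: the circle
  have s3 := hK0 _ h3
  rw [abs_le] at *
  constructor <;> linarith [s1.1, s1.2, s2.1, s2.2, s3.1, s3.2]

/-- **The finite statement.** -/
lemma fin_avg (H : LA ρ m) {ε δ K0 k A B W σ : ℝ} {q N : ℕ} {p : ℤ} (hε : 0 ≤ ε)
    (hu : ∀ a a' : ℝ, |a - a'| ≤ δ → |ρ a - ρ a'| ≤ ε)
    (hK0 : ∀ K ≥ K0, |(2 * Real.pi)⁻¹ * (∫ y in (0 : ℝ)..(2 * Real.pi), ρ (K * Real.cos y)) - m| ≤ ε)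
    (hq : 0 < q) (hN : 0 < N) (hg : Int.gcd q p = 1) (hk : 0 ≤ k) (hA : |A| ≤ W) (hB : |B| ≤ W)
    (hσ : 0 ≤ σ) (h1 : k * (2 * W) * |(q : ℝ) - 2 * Real.pi * p| ≤ δ)
    (h2 : k * (2 * W) * (2 * Real.pi / q) ≤ δ) (h4 : k * (2 * W) * (q / N) ≤ δ)
    (h3 : K0 ≤ k * (σ * Real.sqrt (A ^ 2 + B ^ 2))) :
    |av (range N) (fun n => ρ (k * (A * Real.cos n - ((n : ℝ) / N) * B * Real.sin n))) - m| ≤
      2 * (q / N) + 4 * ε + 3 * (σ + 1 / N) := by
  have hqr : (0 : ℝ) < q := Nat.cast_pos.2 hq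
  have hNr : (0 : ℝ) < N := Nat.cast_pos.2 hN
  have hneq : (range q).Nonempty := by rw [nonempty_range_iff]; omega
  have hneN : (range N).Nonempty := by rw [nonempty_range_iff]; omega
  have hW : 0 ≤ W := (abs_nonneg _).trans hA
  have hm := H.m_le
  set F : ℕ → ℝ := fun n => gg ρ k A B ((n : ℝ) / N) n with hF
  have hF1 : ∀ n, |F n| ≤ 1 := fun n => H.bd _
  have e0 : av (range N) (fun n => ρ (k * (A * Real.cos n - ((n : ℝ) / N) * B * Real.sin n))) =
      av (range N) F := rfl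
  rw [e0]
  -- first comparison
  have a1 : |av (range N) F - av (range N) (fun n => av (range q) (fun j => F (n + j)))| ≤ 2 * (q / N) := by
    rw [av_comm (range N) (range q)]
    have e1 : av (range N) F = av (range q) (fun _ => av (range N) F) := (av_const hneq _).symm
    rw [e1, ← av_sub]
    refine abs_av_le hneq fun j hj => ?_
    have h5 := Pool.Agent.H63.NS.P4.abs_av_shift_le N j F 1 hF1
    rw [abs_sub_comm]
    refine h5.trans ?_
    have hj' : (j : ℝ) ≤ q := by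
      have := (mem_range.1 hj).le
      exact_mod_cast this
    rw [mul_one, mul_div_assoc]
    have : (j : ℝ) / N ≤ q / N := div_le_div_of_nonneg_right hj' hNr.le
    linarith
  -- second comparison
  have a2 : |av (range N) (fun n => av (range q) (fun j => F (n + j))) -
      av (range N) (fun n => av (range q) (fun j => gg ρ k A B ((n : ℝ) / N) ((n : ℝ) + j)))| ≤ ε := by
    rw [← av_sub]
    refine abs_av_le hneN fun n _ => ?_
    rw [← av_sub]
    refine abs_av_le hneq fun j hj => ?_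
    have hj' : (j : ℝ) ≤ q := by
      have := (mem_range.1 hj).le
      exact_mod_cast this
    rw [hF]
    unfold gg
    apply hu
    refine le_trans ?_ h4
    push_cast
    have e2 : k * (A * Real.cos ((n : ℝ) + j) - ((n : ℝ) + j) / N * B * Real.sin ((n : ℝ) + j)) -
        k * (A * Real.cos ((n : ℝ) + j) - (n : ℝ) / N * B * Real.sin ((n : ℝ) + j)) =
        -(k * (((j : ℝ) / N) * (B * Real.sin ((n : ℝ) + j)))) := by
      field_simp
      ring
    rw [e2, abs_neg, abs_mul, abs_of_nonneg hk, abs_mul, abs_mul,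
      abs_of_nonneg (by positivity : (0 : ℝ) ≤ (j : ℝ) / N)]
    have h6 : (j : ℝ) / N ≤ q / N := div_le_div_of_nonneg_right hj' hNr.le
    have h7 : |B| * |Real.sin ((n : ℝ) + j)| ≤ W * 1 :=
      mul_le_mul hB (Real.abs_sin_le_one _) (abs_nonneg _) hW
    have h8 : (0 : ℝ) ≤ q / N := by positivity
    calc k * ((j : ℝ) / N * (|B| * |Real.sin ((n : ℝ) + j)|)) ≤ k * (q / N * (W * 1)) :=
          mul_le_mul_of_nonneg_left (mul_le_mul h6 h7 (by positivity) h8) hk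
      _ ≤ k * (2 * W) * (q / N) := by nlinarith [mul_nonneg hk (mul_nonneg h8 hW)]
  -- third comparison
  obtain ⟨j0, hj0⟩ : ∃ j0 : ℕ, j0 = ⌈σ * N⌉₊ := ⟨_, rfl⟩
  have hj1 : σ * N ≤ j0 := by rw [hj0]; exact Nat.le_ceil _
  have hj2 : (j0 : ℝ) < σ * N + 1 := by rw [hj0]; exact Nat.ceil_lt_add_one (by positivity)
  have a3 : ∀ n ∈ range N, |av (range q) (fun j => gg ρ k A B ((n : ℝ) / N) ((n : ℝ) + j)) - m| ≤
      3 * ε + 3 * (if n < j0 then 1 else 0) := by
    intro n hn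
    have hn' : (n : ℝ) ≤ N := by
      have := (mem_range.1 hn).le
      exact_mod_cast this
    split_ifs with hc
    · have h5 : |av (range q) (fun j => gg ρ k A B ((n : ℝ) / N) ((n : ℝ) + j))| ≤ 1 :=
        abs_av_le hneq fun j _ => H.bd _
      have h6 := abs_sub (av (range q) (fun j => gg ρ k A B ((n : ℝ) / N) ((n : ℝ) + j))) m
      linarith
    · have hs0 : 0 ≤ (n : ℝ) / N := by positivity
      have hs1 : (n : ℝ) / N ≤ 1 := (div_le_one hNr).2 hn'
      have hσs : σ ≤ (n : ℝ) / N := by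
        rw [le_div_iff₀ hNr]
        have : (j0 : ℝ) ≤ n := by exact_mod_cast not_lt.1 hc
        linarith
      have h5 := q_avg (m := m) (s := (n : ℝ) / N) H.uc.continuous hu hK0 hq hg hk hA hB
        (by rw [abs_of_nonneg hs0]; exact hs1) h1 h2 ?_ (n : ℝ)
      · linarith
      · refine h3.trans (mul_le_mul_of_nonneg_left ?_ hk)
        have h6 : σ * Real.sqrt (A ^ 2 + B ^ 2) ≤ (n : ℝ) / N * Real.sqrt (A ^ 2 + B ^ 2) :=
          mul_le_mul_of_nonneg_right hσs (Real.sqrt_nonneg _)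
        refine h6.trans ?_
        apply Real.le_sqrt_of_sq_le
        rw [mul_pow, Real.sq_sqrt (by positivity)]
        set s := (n : ℝ) / N with hs
        have : s ^ 2 ≤ 1 := pow_le_one₀ hs0 hs1
        nlinarith [sq_nonneg A, sq_nonneg B]
  have a4 : |av (range N) (fun n => av (range q) (fun j => gg ρ k A B ((n : ℝ) / N) ((n : ℝ) + j))) - m| ≤
      3 * ε + 3 * (σ + 1 / N) := by
    have e1 : m = av (range N) (fun _ => m) := (av_const hneN _).symm
    conv_lhs => rw [e1]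
    rw [← av_sub]
    refine (abs_av_le_av _ _).trans ((av_mono a3).trans ?_)
    rw [av_add, av_const hneN, av_mul]
    have h5 : av (range N) (fun n => (if n < j0 then (1 : ℝ) else 0)) ≤ σ + 1 / N := by
      rw [av_range, sum_ite, sum_const_zero, add_zero, sum_const, nsmul_eq_mul, mul_one]
      have h6 : (((range N).filter fun n => n < j0).card : ℝ) ≤ j0 := by
        have : ((range N).filter fun n => n < j0).card ≤ (range j0).card :=
          card_le_card fun x hx => mem_range.2 (mem_filter.1 hx).2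
        rw [card_range] at this
        exact_mod_cast this
      rw [inv_mul_le_iff₀ hNr, mul_add, mul_one_div_cancel hNr.ne']
      linarith
    linarith
  have b1 := abs_le.1 a1
  have b2 := abs_le.1 a2
  have b4 := abs_le.1 a4
  rw [abs_le]
  constructor <;> linarith [b1.1, b1.2, b2.1, b2.2, b4.1, b4.2]

/-- **(M5b)** -/
theorem ed_of (𝒰 : Ultrafilter ℕ) (hU : (𝒰 : Filter ℕ) ≤ atTop) (q1 : ℕ → ℕ) (p1 : ℕ → ℤ)
    (AN BN : ℕ → ℝ) (A B : ℝ) (hA : Tendsto AN (𝒰 : Filter ℕ) (𝓝 A))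
    (hB : Tendsto BN (𝒰 : Filter ℕ) (𝓝 B)) (hAB : A ≠ 0 ∨ B ≠ 0)
    (hd : Tendsto (fun N => (q1 N : ℝ) - 2 * Real.pi * p1 N) (𝒰 : Filter ℕ) (𝓝 0))
    (hg : ∀ᶠ N in (𝒰 : Filter ℕ), Int.gcd (q1 N) (p1 N) = 1)
    (hq0 : Tendsto (fun N => (q1 N : ℝ) / N) (𝒰 : Filter ℕ) (𝓝 0))
    (hq1 : Tendsto q1 (𝒰 : Filter ℕ) atTop)
    (ρ : ℝ → ℝ) (m : ℝ) (h1 : ∀ a, |ρ a| ≤ 1)
    (h2 : ∀ ε : ℝ, 0 < ε → ∃ δ : ℝ, 0 < δ ∧ ∀ a a' : ℝ, |a - a'| ≤ δ → |ρ a - ρ a'| ≤ ε)
    (h3 : ∀ ε : ℝ, 0 < ε → ∃ L : ℕ, ∀ k ≥ L, ∀ K ≥ L, ∀ x : ℝ,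
        |av (range (K * 2 ^ k)) (fun i => ρ (x + (i : ℝ) / 2 ^ k)) - m| ≤ ε) :
    ∀ ε : ℝ, 0 < ε → ∃ k0 : ℕ, ∀ k ≥ k0, ∀ᶠ N in (𝒰 : Filter ℕ),
      |av (range N) (fun n => ρ (k * (AN N * Real.cos n - ((n : ℝ) / N) * BN N * Real.sin n))) - m| ≤ ε := by
  intro ε hε
  have H : LA ρ m := ⟨h1, h2, h3⟩
  obtain ⟨e, he⟩ : ∃ e : ℝ, e = ε / 16 := ⟨_, rfl⟩
  have he0 : 0 < e := by rw [he]; positivity
  obtain ⟨δ, hδ, hu⟩ := h2 e he0
  obtain ⟨K0, hK0, hcirc⟩ := H.circ he0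
  have hS : 0 < A ^ 2 + B ^ 2 := by
    rcases hAB with h | h
    · have := sq_pos_of_ne_zero h; nlinarith [sq_nonneg B]
    · have := sq_pos_of_ne_zero h; nlinarith [sq_nonneg A]
  obtain ⟨c1, hc1⟩ : ∃ c1 : ℝ, c1 = Real.sqrt ((A ^ 2 + B ^ 2) / 2) := ⟨_, rfl⟩
  have hc10 : 0 < c1 := by rw [hc1]; exact Real.sqrt_pos.2 (by positivity)
  obtain ⟨k0, hk0⟩ := exists_nat_ge (K0 / (e * c1))
  refine ⟨k0, fun k hk => ?_⟩
  have hk' : K0 ≤ (k : ℝ) * (e * c1) := by
    have h4 : K0 / (e * c1) ≤ (k : ℝ) := hk0.trans (by exact_mod_cast hk)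
    rwa [div_le_iff₀ (by positivity)] at h4
  obtain ⟨W, hW⟩ : ∃ W : ℝ, W = |A| + |B| + 1 := ⟨_, rfl⟩
  have hWpos : 0 < W := by rw [hW]; positivity
  obtain ⟨D, hD⟩ : ∃ D : ℝ, D = (k : ℝ) * (2 * W) + 1 := ⟨_, rfl⟩
  have hD0 : 0 < D := by rw [hD]; positivity
  have hkD : (k : ℝ) * (2 * W) ≤ D := by rw [hD]; linarith
  -- the eventual conditions
  have E1 : ∀ᶠ N in (𝒰 : Filter ℕ), |AN N| ≤ W := by
    have := hA.abs.eventually (Iio_mem_nhds (show |A| < W by rw [hW]; have := abs_nonneg B; linarith))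
    exact this.mono fun N h => le_of_lt h
  have E2 : ∀ᶠ N in (𝒰 : Filter ℕ), |BN N| ≤ W := by
    have := hB.abs.eventually (Iio_mem_nhds (show |B| < W by rw [hW]; have := abs_nonneg A; linarith))
    exact this.mono fun N h => le_of_lt h
  have E3 : ∀ᶠ N in (𝒰 : Filter ℕ), (A ^ 2 + B ^ 2) / 2 < AN N ^ 2 + BN N ^ 2 :=
    ((hA.pow 2).add (hB.pow 2)).eventually (Ioi_mem_nhds (by linarith))
  have E4 : ∀ᶠ N in (𝒰 : Filter ℕ), |(q1 N : ℝ) - 2 * Real.pi * p1 N| < δ / D := by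
    have := hd.abs
    rw [abs_zero] at this
    exact this.eventually (Iio_mem_nhds (by positivity))
  have E5 : ∀ᶠ N in (𝒰 : Filter ℕ), (q1 N : ℝ) / N < min e (δ / D) :=
    hq0.eventually (Iio_mem_nhds (by positivity))
  have E6 : ∀ᶠ N in (𝒰 : Filter ℕ), 2 * Real.pi * D / δ + 1 ≤ (q1 N : ℝ) := by
    have := tendsto_natCast_atTop_atTop (R := ℝ) |>.comp hq1
    exact this.eventually (eventually_ge_atTop _)
  have E7 : ∀ᶠ N : ℕ in (𝒰 : Filter ℕ), 1 / e ≤ (N : ℝ) := by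
    have h5 : ∀ᶠ N : ℕ in atTop, 1 / e ≤ (N : ℝ) :=
      (tendsto_natCast_atTop_atTop (R := ℝ)).eventually (eventually_ge_atTop (1 / e))
    exact hU h5
  filter_upwards [E1, E2, E3, E4, E5, E6, E7, hg] with N f1 f2 f3 f4 f5 f6 f7 f8
  have hpi := Real.pi_pos
  have hqr : (0 : ℝ) < q1 N := lt_of_lt_of_le (by positivity) f6
  have hq : 0 < q1 N := by exact_mod_cast hqr
  have hNr : (0 : ℝ) < N := lt_of_lt_of_le (by positivity) f7
  have hN : 0 < N := by exact_mod_cast hNr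
  have g1 : (k : ℝ) * (2 * W) * |(q1 N : ℝ) - 2 * Real.pi * p1 N| ≤ δ := by
    calc (k : ℝ) * (2 * W) * |(q1 N : ℝ) - 2 * Real.pi * p1 N| ≤ D * (δ / D) :=
          mul_le_mul hkD f4.le (abs_nonneg _) hD0.le
      _ = δ := by field_simp
  have g2 : (k : ℝ) * (2 * W) * (2 * Real.pi / q1 N) ≤ δ := by
    have h5 : 2 * Real.pi / q1 N ≤ δ / D := by
      rw [div_le_div_iff₀ hqr hD0]
      have h6 : 2 * Real.pi * D / δ ≤ (q1 N : ℝ) := by linarith
      rw [div_le_iff₀ hδ] at h6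
      linarith
    calc (k : ℝ) * (2 * W) * (2 * Real.pi / q1 N) ≤ D * (δ / D) :=
          mul_le_mul hkD h5 (by positivity) hD0.le
      _ = δ := by field_simp
  have g4 : (k : ℝ) * (2 * W) * ((q1 N : ℝ) / N) ≤ δ := by
    calc (k : ℝ) * (2 * W) * ((q1 N : ℝ) / N) ≤ D * (δ / D) :=
          mul_le_mul hkD (f5.le.trans (min_le_right _ _)) (by positivity) hD0.le
      _ = δ := by field_simp
  have g3 : K0 ≤ (k : ℝ) * (e * Real.sqrt (AN N ^ 2 + BN N ^ 2)) := by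
    refine hk'.trans (mul_le_mul_of_nonneg_left (mul_le_mul_of_nonneg_left ?_ he0.le) (Nat.cast_nonneg _))
    rw [hc1]
    exact Real.sqrt_le_sqrt f3.le
  have hfin := fin_avg H he0.le hu hcirc hq hN f8 (Nat.cast_nonneg k) f1 f2 he0.le g1 g2 g4 g3
  refine hfin.trans ?_
  have h6 : (q1 N : ℝ) / N ≤ e := f5.le.trans (min_le_left _ _)
  have h7 : 1 / (N : ℝ) ≤ e := by
    rw [div_le_iff₀ hNr]
    rw [div_le_iff₀ he0] at f7
    linarith
  rw [he] at *
  linarith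

end Pool.Agent.H70.NS
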