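import Pool.Agent.H70.NS.Riem

/-!
Averages of `ρ (K cos y)` over the circle (MP_3ea55a_an, M5b).
-/

set_option autoImplicit false

open MeasureTheory Finset Filter Topology intervalIntegral
open scoped BigOperators

namespace Pool.Agent.H70.NS

open Pool.Agent.H63.NS (av)

variable {ρ : ℝ → ℝ} {m : ℝ}

/-- second order bound for the cosine -/
lemma cos_taylor (y z : ℝ) (h0 : 0 ≤ z) (h1 : z ≤ 1) :
    |Real.cos (y + z) - (Real.cos y - z * Real.sin y)| ≤ z ^ 2 := by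
  have e : Real.cos (y + z) - (Real.cos y - z * Real.sin y) =
      -(Real.cos y * (1 - Real.cos z)) + Real.sin y * (z - Real.sin z) := by
    rw [Real.cos_add]; ring
  have a1 : 0 ≤ 1 - Real.cos z ∧ 1 - Real.cos z ≤ z ^ 2 / 2 := by
    have := Real.one_sub_sq_div_two_le_cos (x := z)
    have := Real.cos_le_one z
    constructor <;> linarith
  have a2 : 0 ≤ z - Real.sin z ∧ z - Real.sin z ≤ z ^ 2 / 2 := by
    have b1 := Real.sin_le h0
    rcases h0.eq_or_lt with h | h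
    · rw [← h]; simp
    · have b2 := Real.sin_gt_sub_cube h
      refine ⟨by linarith, ?_⟩
      nlinarith [pow_pos h 2]
  have c1 := Real.abs_cos_le_one y
  have c2 := Real.abs_sin_le_one y
  rw [e]
  calc |-(Real.cos y * (1 - Real.cos z)) + Real.sin y * (z - Real.sin z)|
      ≤ |-(Real.cos y * (1 - Real.cos z))| + |Real.sin y * (z - Real.sin z)| := abs_add_le _ _
    _ = |Real.cos y| * (1 - Real.cos z) + |Real.sin y| * (z - Real.sin z) := by
        rw [abs_neg, abs_mul, abs_mul, abs_of_nonneg a1.1, abs_of_nonneg a2.1]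
    _ ≤ 1 * (z ^ 2 / 2) + 1 * (z ^ 2 / 2) := by
        refine add_le_add (mul_le_mul c1 a1.2 a1.1 zero_le_one) (mul_le_mul c2 a2.2 a2.1 zero_le_one)
    _ = z ^ 2 := by ring

/-- one short arc -/
lemma piece (hc : Continuous ρ) {ε δ T0 K s0 τ y : ℝ}
    (hu : ∀ a a' : ℝ, |a - a'| ≤ δ → |ρ a - ρ a'| ≤ ε / 2)
    (hl : ∀ T ≥ T0, ∀ x : ℝ, |T⁻¹ * (∫ t in x..(x + T), ρ t) - m| ≤ ε / 2) (hK : 0 < K)
    (hs0 : 0 < s0) (hs : s0 ≤ Real.sin y) (hτ0 : 0 < τ) (hτ1 : τ ≤ 1) (h1 : K * τ ^ 2 ≤ δ)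
    (h2 : T0 ≤ K * s0 * τ) : |(∫ t in y..(y + τ), ρ (K * Real.cos t)) - τ * m| ≤ ε * τ := by
  have hsy : 0 < Real.sin y := lt_of_lt_of_le hs0 hs
  set c := K * Real.sin y with hcd
  set d := K * Real.cos y with hdd
  have hcpos : 0 < c := mul_pos hK hsy
  have e1 : ∫ t in y..(y + τ), ρ (K * Real.cos t) = ∫ z in (0 : ℝ)..τ, ρ (K * Real.cos (y + z)) := by
    have := intervalIntegral.integral_comp_add_left (a := 0) (b := τ) (fun t => ρ (K * Real.cos t)) y
    rw [add_zero] at this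
    exact this.symm
  have f1 : Continuous fun z : ℝ => ρ (K * Real.cos (y + z)) :=
    hc.comp (continuous_const.mul (Real.continuous_cos.comp (continuous_const.add continuous_id)))
  have f2 : Continuous fun z : ℝ => ρ (d - c * z) :=
    hc.comp (continuous_const.sub (continuous_const.mul continuous_id))
  have e2 : |(∫ z in (0 : ℝ)..τ, ρ (K * Real.cos (y + z))) - ∫ z in (0 : ℝ)..τ, ρ (d - c * z)| ≤
      ε / 2 * τ := by
    rw [← intervalIntegral.integral_sub (f1.intervalIntegrable _ _) (f2.intervalIntegrable _ _)]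
    have h3 : ∀ z ∈ Set.uIoc (0 : ℝ) τ, ‖ρ (K * Real.cos (y + z)) - ρ (d - c * z)‖ ≤ ε / 2 := by
      intro z hz
      rw [Set.uIoc_of_le hτ0.le] at hz
      rw [Real.norm_eq_abs]
      apply hu
      have h4 := cos_taylor y z hz.1.le (hz.2.trans hτ1)
      have h5 : K * Real.cos (y + z) - (d - c * z) =
          K * (Real.cos (y + z) - (Real.cos y - z * Real.sin y)) := by
        rw [hcd, hdd]; ring
      rw [h5, abs_mul, abs_of_pos hK]
      have h6 : z ^ 2 ≤ τ ^ 2 := pow_le_pow_left₀ hz.1.le hz.2 2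
      calc K * |Real.cos (y + z) - (Real.cos y - z * Real.sin y)| ≤ K * z ^ 2 :=
            mul_le_mul_of_nonneg_left h4 hK.le
        _ ≤ K * τ ^ 2 := mul_le_mul_of_nonneg_left h6 hK.le
        _ ≤ δ := h1
    have h7 := intervalIntegral.norm_integral_le_of_norm_le_const h3
    rw [Real.norm_eq_abs, sub_zero, abs_of_pos hτ0] at h7
    exact h7
  have e3 : ∫ z in (0 : ℝ)..τ, ρ (d - c * z) = c⁻¹ * ∫ t in (d - c * τ)..d, ρ t := by
    have := intervalIntegral.integral_comp_sub_mul (a := 0) (b := τ) ρ hcpos.ne' d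
    rw [mul_zero, sub_zero, smul_eq_mul] at this
    exact this
  have h8 : T0 ≤ c * τ := by
    refine h2.trans ?_
    rw [hcd]
    have : K * s0 ≤ K * Real.sin y := mul_le_mul_of_nonneg_left hs hK.le
    exact mul_le_mul_of_nonneg_right this hτ0.le
  have h9 := hl (c * τ) h8 (d - c * τ)
  rw [sub_add_cancel] at h9
  have hcτ : 0 < c * τ := mul_pos hcpos hτ0
  have e4 : |c⁻¹ * (∫ t in (d - c * τ)..d, ρ t) - τ * m| ≤ ε / 2 * τ := by
    have e5 : c⁻¹ * (∫ t in (d - c * τ)..d, ρ t) - τ * m =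
        τ * ((c * τ)⁻¹ * (∫ t in (d - c * τ)..d, ρ t) - m) := by
      field_simp
    rw [e5, abs_mul, abs_of_pos hτ0, mul_comm]
    exact mul_le_mul_of_nonneg_right h9 hτ0.le
  rw [e1]
  rw [e3] at e2
  rw [abs_le] at *
  constructor <;> linarith [e2.1, e2.2, e4.1, e4.2]

/-- an arc on which the sine is bounded from below -/
lemma LA.arc (H : LA ρ m) {a b s0 : ℝ} (hab : a < b) (hs0 : 0 < s0)
    (hs : ∀ y, a ≤ y → y ≤ b → s0 ≤ Real.sin y) {ε : ℝ} (hε : 0 < ε) :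
    ∃ K0 : ℝ, 0 < K0 ∧ ∀ K ≥ K0, |(∫ y in a..b, ρ (K * Real.cos y)) - (b - a) * m| ≤ ε * (b - a) := by
  have hc := H.uc.continuous
  obtain ⟨T0, hT0, hl⟩ := H.long (half_pos hε)
  obtain ⟨δ, hδ, hu⟩ := H.uc (ε / 2) (half_pos hε)
  obtain ⟨ℓ, hℓ⟩ : ∃ ℓ, ℓ = b - a := ⟨_, rfl⟩
  have hℓ0 : 0 < ℓ := by rw [hℓ]; linarith
  obtain ⟨W, hW⟩ : ∃ W : ℝ, W = max 1 (max (1 / ℓ) (2 * T0 / (δ * s0))) := ⟨_, rfl⟩
  have hW1 : 1 ≤ W := hW ▸ le_max_left _ _
  have hW2 : 1 / ℓ ≤ W := hW ▸ (le_max_left _ _).trans (le_max_right _ _)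
  have hW3 : 2 * T0 / (δ * s0) ≤ W := hW ▸ (le_max_right _ _).trans (le_max_right _ _)
  refine ⟨δ * W ^ 2, by positivity, fun K hK => ?_⟩
  obtain ⟨w, hw⟩ : ∃ w, w = Real.sqrt (K / δ) := ⟨_, rfl⟩
  have hKpos : 0 < K := lt_of_lt_of_le (by positivity) hK
  have hw2 : w ^ 2 = K / δ := by rw [hw]; exact Real.sq_sqrt (by positivity)
  have hKw : K = δ * w ^ 2 := by rw [hw2]; field_simp
  have hWw : W ≤ w := by
    rw [hw]
    apply Real.le_sqrt_of_sq_le
    rw [le_div_iff₀ hδ]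
    linarith
  have hw1 : 1 ≤ w := hW1.trans hWw
  have hw0 : 0 < w := by linarith
  have hℓw : 1 ≤ ℓ * w := by
    have := hW2.trans hWw
    rw [div_le_iff₀ hℓ0] at this
    linarith
  obtain ⟨M, hM⟩ : ∃ M : ℕ, M = ⌈ℓ * w⌉₊ := ⟨_, rfl⟩
  have hM1 : ℓ * w ≤ M := by rw [hM]; exact Nat.le_ceil _
  have hM2 : (M : ℝ) < ℓ * w + 1 := by rw [hM]; exact Nat.ceil_lt_add_one (by positivity)
  have hMr : (0 : ℝ) < M := by linarith
  obtain ⟨τ, hτ⟩ : ∃ τ : ℝ, τ = ℓ / M := ⟨_, rfl⟩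
  have hτ0 : 0 < τ := by rw [hτ]; positivity
  have hMτ : M * τ = ℓ := by rw [hτ]; field_simp
  have hτw : τ * w ≤ 1 := by
    rw [hτ, div_mul_eq_mul_div, div_le_one hMr]; exact hM1
  have hτw2 : 1 ≤ 2 * (τ * w) := by
    rw [hτ, div_mul_eq_mul_div, ← mul_div_assoc, le_div_iff₀ hMr]
    linarith
  have hτ1 : τ ≤ 1 := by nlinarith
  have h1 : K * τ ^ 2 ≤ δ := by
    rw [hKw]
    have e : δ * w ^ 2 * τ ^ 2 = δ * (τ * w) ^ 2 := by ring
    rw [e]
    have : (τ * w) ^ 2 ≤ 1 := pow_le_one₀ (by positivity) hτw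
    nlinarith
  have h2 : T0 ≤ K * s0 * τ := by
    have h3 := hW3.trans hWw
    rw [div_le_iff₀ (by positivity)] at h3
    rw [hKw]
    have e : δ * w ^ 2 * s0 * τ = (w * (δ * s0)) * (τ * w) := by ring
    rw [e]
    have h4 : (w * (δ * s0)) * (1 / 2) ≤ (w * (δ * s0)) * (τ * w) :=
      mul_le_mul_of_nonneg_left (by linarith) (by positivity)
    linarith
  have hcont : Continuous fun y : ℝ => ρ (K * Real.cos y) :=
    hc.comp (continuous_const.mul Real.continuous_cos)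
  have e1 : ∫ y in a..b, ρ (K * Real.cos y) =
      ∑ i ∈ range M, ∫ y in (a + i * τ)..(a + (i : ℝ) * τ + τ), ρ (K * Real.cos y) := by
    have := sum_integral_adjacent_intervals (f := fun y => ρ (K * Real.cos y)) (μ := volume)
      (a := fun r : ℕ => a + r * τ) (n := M) (fun k _ => hcont.intervalIntegrable _ _)
    simp only [Nat.cast_zero, zero_mul, add_zero] at this
    rw [hMτ, hℓ, add_sub_cancel] at this
    rw [← this]
    refine sum_congr rfl fun i _ => ?_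
    congr 1
    push_cast
    ring
  have e2 : (b - a) * m = ∑ i ∈ range M, τ * m := by
    rw [sum_const, card_range, nsmul_eq_mul, ← mul_assoc, hMτ, hℓ]
  rw [e1, e2, ← sum_sub_distrib]
  calc |∑ i ∈ range M, ((∫ y in (a + i * τ)..(a + (i : ℝ) * τ + τ), ρ (K * Real.cos y)) - τ * m)|
      ≤ ∑ i ∈ range M, ε * τ := by
        refine (abs_sum_le_sum_abs _ _).trans (sum_le_sum fun i hi => ?_)
        have hi' : (i : ℝ) + 1 ≤ M := by
          have := mem_range.1 hi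
          exact_mod_cast this
        refine piece hc hu hl hKpos hs0 (hs _ ?_ ?_) hτ0 hτ1 h1 h2
        · have : 0 ≤ (i : ℝ) * τ := by positivity
          linarith
        · have h5 : (i : ℝ) * τ ≤ M * τ := mul_le_mul_of_nonneg_right (by linarith) hτ0.le
          rw [hMτ, hℓ] at h5
          linarith
    _ = ε * (b - a) := by
        rw [sum_const, card_range, nsmul_eq_mul, ← hℓ, ← hMτ]
        ring

/-- **The circle.** -/
lemma LA.circ (H : LA ρ m) {ε : ℝ} (hε : 0 < ε) : ∃ K0 : ℝ, 0 < K0 ∧ ∀ K ≥ K0,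
    |(2 * Real.pi)⁻¹ * (∫ y in (0 : ℝ)..(2 * Real.pi), ρ (K * Real.cos y)) - m| ≤ ε := by
  have hc := H.uc.continuous
  have hpi := Real.pi_gt_three
  have hpi0 := Real.pi_pos
  obtain ⟨κ, hκ⟩ : ∃ κ : ℝ, κ = min (ε / 6) (1 / 2) := ⟨_, rfl⟩
  have hκ0 : 0 < κ := by rw [hκ]; positivity
  have hκ1 : κ ≤ ε / 6 := hκ ▸ min_le_left _ _
  have hκ2 : κ ≤ 1 / 2 := hκ ▸ min_le_right _ _
  have hs0 : 0 < Real.sin κ := Real.sin_pos_of_pos_of_lt_pi hκ0 (by linarith)
  have hs : ∀ y, κ ≤ y → y ≤ Real.pi - κ → Real.sin κ ≤ Real.sin y := by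
    intro y h1 h2
    rcases le_total y (Real.pi / 2) with h3 | h3
    · exact Real.sin_le_sin_of_le_of_le_pi_div_two (by linarith) h3 h1
    · rw [← Real.sin_pi_sub y]
      exact Real.sin_le_sin_of_le_of_le_pi_div_two (by linarith) (by linarith) (by linarith)
  obtain ⟨K0, hK0, hA⟩ := H.arc (a := κ) (b := Real.pi - κ) (by linarith) hs0 hs (half_pos hε)
  refine ⟨K0, hK0, fun K hK => ?_⟩
  have h1 := hA K hK
  have hcont : Continuous fun y : ℝ => ρ (K * Real.cos y) :=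
    hc.comp (continuous_const.mul Real.continuous_cos)
  have hint : ∀ a c : ℝ, IntervalIntegrable (fun y : ℝ => ρ (K * Real.cos y)) volume a c :=
    fun a c => hcont.intervalIntegrable a c
  have e1 : ∫ y in Real.pi..(2 * Real.pi), ρ (K * Real.cos y) =
      ∫ y in (0 : ℝ)..Real.pi, ρ (K * Real.cos y) := by
    have h := intervalIntegral.integral_comp_sub_left (a := 0) (b := Real.pi)
      (fun y => ρ (K * Real.cos y)) (2 * Real.pi)
    rw [sub_zero, show 2 * Real.pi - Real.pi = Real.pi by ring] at h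
    rw [← h]
    congr 1
    funext y
    rw [Real.cos_two_pi_sub]
  have e2 : ∫ y in (0 : ℝ)..(2 * Real.pi), ρ (K * Real.cos y) =
      2 * ∫ y in (0 : ℝ)..Real.pi, ρ (K * Real.cos y) := by
    rw [← intervalIntegral.integral_add_adjacent_intervals (hint 0 Real.pi) (hint _ _), e1]
    ring
  have e3 : ∫ y in (0 : ℝ)..Real.pi, ρ (K * Real.cos y) =
      (∫ y in (0 : ℝ)..κ, ρ (K * Real.cos y)) + (∫ y in κ..(Real.pi - κ), ρ (K * Real.cos y)) +
        ∫ y in (Real.pi - κ)..Real.pi, ρ (K * Real.cos y) := by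
    rw [intervalIntegral.integral_add_adjacent_intervals (hint _ _) (hint _ _),
      intervalIntegral.integral_add_adjacent_intervals (hint _ _) (hint _ _)]
  have b1 : |∫ y in (0 : ℝ)..κ, ρ (K * Real.cos y)| ≤ 1 * (κ - 0) := int_bd hκ0.le fun t => H.bd _
  have b2 : |∫ y in (Real.pi - κ)..Real.pi, ρ (K * Real.cos y)| ≤ 1 * (Real.pi - (Real.pi - κ)) :=
    int_bd (by linarith) fun t => H.bd _
  have hm := H.m_le
  rw [e2, e3]
  generalize (∫ y in (0 : ℝ)..κ, ρ (K * Real.cos y)) = x1 at *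
  generalize (∫ y in κ..(Real.pi - κ), ρ (K * Real.cos y)) = x2 at *
  generalize (∫ y in (Real.pi - κ)..Real.pi, ρ (K * Real.cos y)) = x3 at *
  have e4 : (2 * Real.pi)⁻¹ * (2 * (x1 + x2 + x3)) - m =
      Real.pi⁻¹ * (x1 + x3 - 2 * κ * m + (x2 - (Real.pi - κ - κ) * m)) := by
    field_simp
    ring
  rw [e4, abs_mul, abs_of_pos (inv_pos.2 hpi0), inv_mul_le_iff₀ hpi0]
  have hm' := abs_le.1 hm
  have b1' := abs_le.1 b1
  have b2' := abs_le.1 b2
  have h1' := abs_le.1 h1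
  rw [abs_le]
  constructor <;> nlinarith

end Pool.Agent.H70.NS
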