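import Pool.Agent.H63.NS.NumDef

/-!
Riemann sums and long averages of a uniformly continuous function (MP_3ea55a_an, M5b).
-/

set_option autoImplicit false

open MeasureTheory Finset Filter Topology intervalIntegral
open scoped BigOperators

namespace Pool.Agent.H70.NS

open Pool.Agent.H63.NS (av av_congr av_add av_sub av_mul av_const av_mono av_le abs_av_le_av abs_av_le
  abs_av_le' av_nonneg)

/-- modulus of continuity in the form of the interface -/
def UC (ρ : ℝ → ℝ) : Prop :=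
  ∀ ε : ℝ, 0 < ε → ∃ δ : ℝ, 0 < δ ∧ ∀ a a' : ℝ, |a - a'| ≤ δ → |ρ a - ρ a'| ≤ ε

lemma UC.continuous {ρ : ℝ → ℝ} (h : UC ρ) : Continuous ρ := by
  rw [Metric.continuous_iff]
  intro b ε hε
  obtain ⟨δ, hδ, h1⟩ := h (ε / 2) (half_pos hε)
  refine ⟨δ, hδ, fun a ha => ?_⟩
  rw [Real.dist_eq] at ha ⊢
  have := h1 a b ha.le
  linarith

lemma av_range (n : ℕ) (f : ℕ → ℝ) : av (range n) f = (n : ℝ)⁻¹ * ∑ i ∈ range n, f i := by
  unfold Pool.Agent.H63.NS.av
  rw [card_range, smul_eq_mul]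

/-- **Riemann sums.** -/
lemma riem {f : ℝ → ℝ} (hf : Continuous f) {ε h : ℝ} {b : ℕ} (hb : 0 < b) (h0 : 0 < h)
    (hu : ∀ a a' : ℝ, |a - a'| ≤ h → |f a - f a'| ≤ ε) (x : ℝ) :
    |av (range b) (fun r => f (x + r * h)) - (b * h)⁻¹ * ∫ t in x..(x + b * h), f t| ≤ ε := by
  have hb' : (0 : ℝ) < b := Nat.cast_pos.2 hb
  have hint : ∀ a c : ℝ, IntervalIntegrable f volume a c := fun a c => hf.intervalIntegrable a c
  have e1 : ∫ t in x..(x + b * h), f t =
      ∑ r ∈ range b, ∫ t in (x + r * h)..(x + (r + 1 : ℕ) * h), f t := by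
    have := sum_integral_adjacent_intervals (f := f) (μ := volume) (a := fun r : ℕ => x + r * h) (n := b)
      (fun k _ => hint _ _)
    simp only [Nat.cast_zero, zero_mul, add_zero] at this
    exact this.symm
  have e2 : ∀ r : ℕ, |h * f (x + r * h) - ∫ t in (x + r * h)..(x + (r + 1 : ℕ) * h), f t| ≤ ε * h := by
    intro r
    have e3 : h * f (x + r * h) = ∫ _t in (x + r * h)..(x + (r + 1 : ℕ) * h), f (x + r * h) := by
      rw [intervalIntegral.integral_const, smul_eq_mul]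
      push_cast
      ring
    rw [e3, ← intervalIntegral.integral_sub (intervalIntegrable_const) (hint _ _)]
    have h1 : ∀ t ∈ Set.uIoc (x + r * h) (x + (r + 1 : ℕ) * h), ‖f (x + r * h) - f t‖ ≤ ε := by
      intro t ht
      rw [Set.uIoc_of_le (by push_cast; nlinarith)] at ht
      rw [Real.norm_eq_abs]
      apply hu
      rw [abs_le]
      obtain ⟨t1, t2⟩ := ht
      push_cast at t2
      constructor <;> nlinarith
    have h2 := intervalIntegral.norm_integral_le_of_norm_le_const h1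
    rw [Real.norm_eq_abs] at h2
    refine h2.trans (le_of_eq ?_)
    rw [show x + ((r + 1 : ℕ) : ℝ) * h - (x + r * h) = h by push_cast; ring, abs_of_pos h0]
  rw [av_range, e1]
  have e4 : (b : ℝ)⁻¹ * ∑ i ∈ range b, f (x + i * h) -
      (b * h)⁻¹ * ∑ r ∈ range b, ∫ t in (x + r * h)..(x + (r + 1 : ℕ) * h), f t =
      (b * h)⁻¹ * ∑ r ∈ range b, (h * f (x + r * h) - ∫ t in (x + r * h)..(x + (r + 1 : ℕ) * h), f t) := by
    rw [sum_sub_distrib, ← mul_sum]
    generalize (∑ i ∈ range b, f (x + i * h)) = A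
    generalize (∑ r ∈ range b, ∫ t in (x + r * h)..(x + (r + 1 : ℕ) * h), f t) = B
    field_simp
  rw [e4, abs_mul, abs_of_pos (by positivity : (0 : ℝ) < (b * h)⁻¹)]
  calc (b * h)⁻¹ * |∑ r ∈ range b, (h * f (x + r * h) - ∫ t in (x + r * h)..(x + (r + 1 : ℕ) * h), f t)|
      ≤ (b * h)⁻¹ * ∑ r ∈ range b, (ε * h) := by
        refine mul_le_mul_of_nonneg_left ?_ (by positivity)
        exact (abs_sum_le_sum_abs _ _).trans (sum_le_sum fun r _ => e2 r)
    _ = ε := by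
        rw [sum_const, card_range, nsmul_eq_mul]
        field_simp

/-- bound for an integral -/
lemma int_bd {f : ℝ → ℝ} {C a c : ℝ} (hac : a ≤ c) (h : ∀ t, |f t| ≤ C) :
    |∫ t in a..c, f t| ≤ C * (c - a) := by
  have h2 := intervalIntegral.norm_integral_le_of_norm_le_const (a := a) (b := c) (f := f) (C := C)
    fun t _ => by rw [Real.norm_eq_abs]; exact h t
  rw [Real.norm_eq_abs, abs_of_nonneg (by linarith : 0 ≤ c - a)] at h2
  exact h2

/-- the two hypotheses of the interface -/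
structure LA (ρ : ℝ → ℝ) (m : ℝ) : Prop where
  bd : ∀ a, |ρ a| ≤ 1
  uc : UC ρ
  la : ∀ ε : ℝ, 0 < ε → ∃ L : ℕ, ∀ k ≥ L, ∀ K ≥ L, ∀ x : ℝ,
    |av (range (K * 2 ^ k)) (fun i => ρ (x + (i : ℝ) / 2 ^ k)) - m| ≤ ε

variable {ρ : ℝ → ℝ} {m : ℝ}

lemma LA.m_le (H : LA ρ m) : |m| ≤ 2 := by
  obtain ⟨L, hL⟩ := H.la 1 one_pos
  have h1 := hL (L + 1) (by omega) (L + 1) (by omega) 0
  have h2 : |av (range ((L + 1) * 2 ^ (L + 1))) (fun i => ρ (0 + (i : ℝ) / 2 ^ (L + 1)))| ≤ 1 :=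
    abs_av_le' zero_le_one fun i _ => H.bd _
  rw [abs_le] at *
  constructor <;> linarith

/-- **Long integral averages.** -/
lemma LA.long (H : LA ρ m) {ε : ℝ} (hε : 0 < ε) :
    ∃ T0 : ℝ, 0 < T0 ∧ ∀ T ≥ T0, ∀ x : ℝ, |T⁻¹ * (∫ t in x..(x + T), ρ t) - m| ≤ ε := by
  have hc := H.uc.continuous
  obtain ⟨L, hL⟩ := H.la (ε / 4) (by positivity)
  obtain ⟨δ, hδ, hu⟩ := H.uc (ε / 4) (by positivity)
  -- integral averages over integer lengths
  have key : ∀ K : ℕ, L ≤ K → 0 < K → ∀ x : ℝ, |(K : ℝ)⁻¹ * (∫ t in x..(x + K), ρ t) - m| ≤ ε / 2 := by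
    intro K hK hK0 x
    obtain ⟨k, hk⟩ : ∃ k : ℕ, (1 / 2 : ℝ) ^ k < δ := exists_pow_lt_of_lt_one hδ (by norm_num)
    obtain ⟨k', hk'⟩ : ∃ k', k' = max k L := ⟨_, rfl⟩
    have h1 : (1 / 2 : ℝ) ^ k' ≤ δ :=
      (pow_le_pow_of_le_one (by norm_num) (by norm_num) (hk' ▸ le_max_left _ _)).trans hk.le
    have h2 := hL k' (hk' ▸ le_max_right _ _) K hK x
    have hpos : 0 < K * 2 ^ k' := Nat.mul_pos hK0 (by positivity)
    have h3 := riem hc hpos (h := (1 / 2 : ℝ) ^ k') (by positivity) (ε := ε / 4)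
      (fun a a' h => hu a a' (h.trans h1)) x
    have e1 : ((K * 2 ^ k' : ℕ) : ℝ) * (1 / 2) ^ k' = K := by
      push_cast
      rw [mul_assoc, ← mul_pow]
      norm_num
    rw [e1] at h3
    have e2 : (fun r : ℕ => ρ (x + r * (1 / 2) ^ k')) = fun i : ℕ => ρ (x + (i : ℝ) / 2 ^ k') := by
      funext r
      rw [one_div, inv_pow, div_eq_mul_inv]
    rw [e2] at h3
    rw [abs_le] at *
    constructor <;> linarith [h2.1, h2.2, h3.1, h3.2]
  refine ⟨max (L + 1 : ℝ) (12 / ε + 1), lt_max_of_lt_left (by positivity), fun T hT x => ?_⟩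
  have hT1 : (L : ℝ) + 1 ≤ T := (le_max_left _ _).trans hT
  have hT2 : 12 / ε + 1 ≤ T := (le_max_right _ _).trans hT
  have hT0 : 0 < T := lt_of_lt_of_le (by positivity) hT1
  obtain ⟨K, hK⟩ : ∃ K : ℕ, K = ⌊T⌋₊ := ⟨_, rfl⟩
  have hK1 : (K : ℝ) ≤ T := by rw [hK]; exact Nat.floor_le hT0.le
  have hK2 : T < K + 1 := by rw [hK]; exact Nat.lt_floor_add_one _
  have hLK : L ≤ K := by
    have : (L : ℝ) < K + 1 := by linarith
    have : L < K + 1 := by exact_mod_cast this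
    omega
  have hK0 : 0 < K := by
    have : (0 : ℝ) < K := by
      have h6 : (0 : ℝ) ≤ L := Nat.cast_nonneg _
      have h7 : 0 < 12 / ε := by positivity
      linarith
    exact_mod_cast this
  have hKr : (0 : ℝ) < K := Nat.cast_pos.2 hK0
  have h1 := key K hLK hK0 x
  have hint : ∀ a c : ℝ, IntervalIntegrable ρ volume a c := fun a c => hc.intervalIntegrable a c
  have e1 : ∫ t in x..(x + T), ρ t = (∫ t in x..(x + K), ρ t) + ∫ t in (x + K)..(x + T), ρ t :=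
    (intervalIntegral.integral_add_adjacent_intervals (hint _ _) (hint _ _)).symm
  have h2 : |∫ t in (x + K)..(x + T), ρ t| ≤ 1 * (x + T - (x + K)) := int_bd (by linarith) H.bd
  have h3 : |∫ t in (x + K)..(x + T), ρ t| ≤ 1 := h2.trans (by linarith)
  have hm := H.m_le
  set J := ∫ t in x..(x + K), ρ t with hJ
  set R := ∫ t in (x + K)..(x + T), ρ t with hR
  rw [e1]
  -- `J = K (m + e)`
  have e2 : T⁻¹ * (J + R) - m = (K / T) * ((K : ℝ)⁻¹ * J - m) + T⁻¹ * (R - (T - K) * m) := by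
    field_simp
    ring
  rw [e2]
  have hKT : 0 ≤ (K : ℝ) / T ∧ (K : ℝ) / T ≤ 1 := ⟨by positivity, (div_le_one hT0).2 hK1⟩
  have h4 : |(K / T) * ((K : ℝ)⁻¹ * J - m)| ≤ ε / 2 := by
    rw [abs_mul, abs_of_nonneg hKT.1]
    have := abs_nonneg ((K : ℝ)⁻¹ * J - m)
    nlinarith
  have h5 : |R - (T - K) * m| ≤ 3 := by
    have h6 : |(T - K) * m| ≤ 2 := by
      rw [abs_mul, abs_of_nonneg (by linarith : 0 ≤ T - K)]
      have := abs_nonneg m
      nlinarith
    calc |R - (T - K) * m| ≤ |R| + |(T - K) * m| := abs_sub _ _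
      _ ≤ 3 := by linarith
  have h6 : |T⁻¹ * (R - (T - K) * m)| ≤ ε / 4 := by
    rw [abs_mul, abs_of_pos (inv_pos.2 hT0)]
    have h7 : T⁻¹ * 3 ≤ ε / 4 := by
      rw [inv_mul_le_iff₀ hT0]
      have : 12 / ε < T := by linarith
      rw [div_lt_iff₀ hε] at this
      nlinarith
    have := inv_pos.2 hT0
    nlinarith
  calc |(K / T) * ((K : ℝ)⁻¹ * J - m) + T⁻¹ * (R - (T - K) * m)|
      ≤ |(K / T) * ((K : ℝ)⁻¹ * J - m)| + |T⁻¹ * (R - (T - K) * m)| := abs_add_le _ _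
    _ ≤ ε := by linarith

end Pool.Agent.H70.NS
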